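import Pool.Agent.KS6_51.MCal.Par
import Pool.Graph.R_seed8.R169.MC.Fin
import Pool.Graph.R_seed8.R169.MC.Bij
import Pool.Graph.R_seed8.R169.MC.Cmp
import Pool.Graph.R_seed8.R169.MC.DihE
import Pool.Graph.R_seed8.R169.MC.DihO
import Pool.Graph.R_seed8.R169.MC.FixC
import Pool.Graph.R_seed8.R169.MC.FixE
import Pool.Graph.R_seed8.R169.MC.GA1
import Pool.Graph.R_seed8.R169.MC.GA2
import Pool.Graph.R_seed8.R169.MC.Red
import Pool.Graph.R_seed8.R169.MC.Rpr
import Pool.Graph.R_seed8.R169.MC.UNeg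
import Pool.Graph.R_seed8.R169.MC.UPos
import Pool.Graph.R_seed8.R169.MC.Wrd
import Pool.Graph.R_seed8.R169.MC.Nei
import Pool.Graph.R_seed8.R169.MC.CN

/-!
# The m-caliber of discriminant `pq` modulo 4, for all primes `p < q` congruent to 1 modulo 4

With `p = x_p² + y_p²`, `q = x_q² + y_q²`, `0 < x_p < y_p`, `0 < x_q < y_q`:
`κ⁺(pq) ≡ 1 - (-1)^{x_p} (q/p) (mod 4)` if `x_p ≢ x_q (mod 2)`, and
`κ⁺(pq) ≡ 1 + (-1)^{x_p} sgn(x_p y_q - y_p x_q) (q/p) (mod 4)` if `x_p ≡ x_q (mod 2)`.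
-/

set_option autoImplicit false

namespace Pool.Agent.Results.MP_6dddb9_nt.BothParities

/-- `w` is an m-reduced real quadratic irrational of discriminant `D`: `w` is irrational, it is a
root of a primitive integral polynomial `a X² + b X + c`, `a > 0`, of discriminant `D`, and
`w > 1`, `0 < w' < 1` for the other root `w'` -/
def MReduced (D : ℤ) (w : ℝ) : Prop :=
  Irrational w ∧ ∃ (a b c : ℤ) (w' : ℝ), 0 < a ∧ Int.gcd (Int.gcd a b) c = 1 ∧
    b ^ 2 - 4 * a * c = D ∧ (a : ℝ) * w ^ 2 + b * w + c = 0 ∧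
    (a : ℝ) * w' ^ 2 + b * w' + c = 0 ∧ w' ≠ w ∧ 1 < w ∧ 0 < w' ∧ w' < 1

/-- the m-caliber `κ⁺(D)` -/
noncomputable def kappaPlus (D : ℤ) : ℕ := Set.ncard {w : ℝ | MReduced D w}

open KS6_51.MCal

theorem ne_prod {p q x y z t : ℕ} (hp : p.Prime) (hq : q.Prime) (hpq : p < q) (hx : 0 < x)
    (hxy : x < y) (hp2 : p = x ^ 2 + y ^ 2) (hq2 : q = z ^ 2 + t ^ 2) :
    (x : ℤ) * t ≠ y * z := by
  intro h
  have h0 : x * t = y * z := by exact_mod_cast h
  have h1 : x ^ 2 * q = p * z ^ 2 := by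
    have h2 : (x * t) ^ 2 = (y * z) ^ 2 := by rw [h0]
    rw [hq2, hp2]
    linear_combination h2
  have h3 : p ∣ x ^ 2 * q := ⟨_, h1⟩
  rcases (Nat.Prime.dvd_mul hp).1 h3 with h4 | h4
  · have h5 := Nat.le_of_dvd hx (hp.dvd_of_dvd_pow h4)
    nlinarith
  · have := (Nat.prime_dvd_prime_iff_eq hp hq).1 h4
    omega

/-- For all primes `p < q` congruent to 1 modulo 4 (here `x = x_p`, `y = y_p`, `z = x_q`,
`t = y_q`): `κ⁺(pq) ≡ 1 - (-1)^{x_p} (q/p) (mod 4)` if `x_p ≢ x_q (mod 2)`, and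
`κ⁺(pq) ≡ 1 + (-1)^{x_p} sgn(x_p y_q - y_p x_q) (q/p) (mod 4)` if `x_p ≡ x_q (mod 2)`; in the
second case `x_p y_q ≠ y_p x_q`, so the sign is `1` or `-1`. -/
theorem result (p q x y z t : ℕ) [Fact p.Prime] (hq : q.Prime) (hpq : p < q)
    (hp4 : p % 4 = 1) (hq4 : q % 4 = 1) (hx : 0 < x) (hxy : x < y) (hp2 : p = x ^ 2 + y ^ 2)
    (hz : 0 < z) (hzt : z < t) (hq2 : q = z ^ 2 + t ^ 2) :
    {w : ℝ | MReduced ((p : ℤ) * q) w}.Finite ∧
    (x % 2 ≠ z % 2 →
      (kappaPlus ((p : ℤ) * q) : ℤ) ≡ 1 - (-1) ^ x * legendreSym p q [ZMOD 4]) ∧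
    (x % 2 = z % 2 →
      (x : ℤ) * t ≠ y * z ∧
      (kappaPlus ((p : ℤ) * q) : ℤ) ≡
        1 + (-1) ^ x * Int.sign ((x : ℤ) * t - y * z) * legendreSym p q [ZMOD 4]) := by
  have hp : p.Prime := Fact.out
  have hS : {w : ℝ | MReduced ((p : ℤ) * q) w}
      = {w : ℝ | Pool.Agent.R169.MC.IsMRed ((p : ℤ) * q) w} := by
    ext w
    exact Pool.Agent.R169.MC.Fin.MR_iff _ w
  have hPQ : Pool.Agent.R169.MC.PQ (p : ℤ) (q : ℤ) ((p : ℤ) * q) :=
    ⟨Nat.prime_iff_prime_int.1 hp, Nat.prime_iff_prime_int.1 hq, by exact_mod_cast hp.pos,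
      by exact_mod_cast hpq, by omega, by omega, rfl⟩
  have hCMP := Pool.Agent.R169.MC.Cmp.main
  have hNEI : Pool.Agent.R169.MC.S_NEI := Pool.Agent.R169.MC.Nei.main
    Pool.Agent.R169.MC.Red.main1 (Pool.Agent.R169.MC.Red.main2 hCMP)
    Pool.Agent.R169.MC.Rpr.main
  have hUN : Pool.Agent.R169.MC.S_UNEG := Pool.Agent.R169.MC.UNeg.main
    Pool.Agent.R169.MC.Wrd.main hCMP
  have hUP : Pool.Agent.R169.MC.S_UPOS := Pool.Agent.R169.MC.UPos.main
    Pool.Agent.R169.MC.Wrd.main hCMP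
  have key : ∀ s : ℤ, (s = 1 ∨ s = -1) → SG p q s → SG q p (-s) →
      (kappaPlus ((p : ℤ) * q) : ℤ) ≡ 1 - s * legendreSym p q [ZMOD 4] := by
    intro s hs h1 h2
    have h := main_gen Pool.Agent.R169.MC.Bij.main Pool.Agent.R169.MC.FixC.main2
      Pool.Agent.R169.MC.DihO.main Pool.Agent.R169.MC.DihE.main Pool.Agent.R169.MC.Wrd.main hUN hUP
      Pool.Agent.R169.MC.GA1.main Pool.Agent.R169.MC.GA2.main Pool.Agent.R169.MC.FixC.main
      Pool.Agent.R169.MC.FixE.main Pool.Agent.R169.MC.CN.main hNEI p q hp hq hpq hp4 hq4 s hs h1 h2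
    unfold kappaPlus
    rw [hS, jacobiSym.legendreSym.to_jacobiSym]
    exact h
  have hp' := Nat.prime_iff_prime_int.1 hp
  have hq' := Nat.prime_iff_prime_int.1 hq
  have hne : (p : ℤ) ≠ q := by exact_mod_cast hpq.ne
  have c1 : (p : ℤ) % 4 = 1 := by omega
  have c2 : (q : ℤ) % 4 = 1 := by omega
  have c3 : (0 : ℤ) < x := by exact_mod_cast hx
  have c4 : (x : ℤ) < y := by exact_mod_cast hxy
  have c5 : (p : ℤ) = (x : ℤ) ^ 2 + (y : ℤ) ^ 2 := by exact_mod_cast hp2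
  have c6 : (0 : ℤ) < z := by exact_mod_cast hz
  have c7 : (z : ℤ) < t := by exact_mod_cast hzt
  have c8 : (q : ℤ) = (z : ℤ) ^ 2 + (t : ℤ) ^ 2 := by exact_mod_cast hq2
  refine ⟨?_, fun hpar => ?_, fun hpar => ?_⟩
  · rw [hS]
    exact Pool.Agent.R169.MC.Fin.fin_of hPQ Pool.Agent.R169.MC.FixC.main2
      Pool.Agent.R169.MC.Bij.main
  · rcases Nat.even_or_odd x with he | ho
    · have hx2 := Nat.even_iff.1 he
      rw [he.neg_one_pow]
      refine key 1 (Or.inl rfl) ?_ ?_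
      · exact SG_ne hp' hq' hne c1 c2 c3 c4 c5 c6 c7 c8 (by omega) (fun _ => by omega)
          (fun h => by norm_num at h)
      · exact SG_ne hq' hp' hne.symm c2 c1 c6 c7 c8 c3 c4 c5 (by omega)
          (fun h => by norm_num at h) (fun _ => by omega)
    · have hx2 := Nat.odd_iff.1 ho
      rw [ho.neg_one_pow]
      refine key (-1) (Or.inr rfl) ?_ ?_
      · exact SG_ne hp' hq' hne c1 c2 c3 c4 c5 c6 c7 c8 (by omega)
          (fun h => by norm_num at h) (fun _ => by omega)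
      · exact SG_ne hq' hp' hne.symm c2 c1 c6 c7 c8 c3 c4 c5 (by omega)
          (fun _ => by omega) (fun h => by norm_num at h)
  · have hnp := ne_prod hp hq hpq hx hxy hp2 hq2
    refine ⟨hnp, ?_⟩
    have e1 : (z : ℤ) * y = y * z := mul_comm _ _
    have e2 : (t : ℤ) * x = x * t := mul_comm _ _
    rcases Nat.even_or_odd x with he | ho
    · have hx2 := Nat.even_iff.1 he
      rw [he.neg_one_pow, one_mul]
      rcases lt_or_gt_of_ne hnp with hlt | hlt
      · rw [Int.sign_eq_neg_one_of_neg (by omega)]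
        have := key 1 (Or.inl rfl)
          (SG_eq hp' hq' hne c1 c2 c3 c4 c5 c6 c7 c8 (by omega)
            (fun _ => Or.inl ⟨by omega, hlt⟩) (fun h => by norm_num at h))
          (SG_eq hq' hp' hne.symm c2 c1 c6 c7 c8 c3 c4 c5 (by omega)
            (fun h => by norm_num at h) (fun _ => Or.inl ⟨by omega, by rw [e1, e2]; exact hlt⟩))
        refine (congrArg (fun v => Int.ModEq 4 _ v) ?_).mp this
        ring
      · rw [Int.sign_eq_one_of_pos (by omega)]
        have := key (-1) (Or.inr rfl)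
          (SG_eq hp' hq' hne c1 c2 c3 c4 c5 c6 c7 c8 (by omega)
            (fun h => by norm_num at h) (fun _ => Or.inl ⟨by omega, hlt⟩))
          (SG_eq hq' hp' hne.symm c2 c1 c6 c7 c8 c3 c4 c5 (by omega)
            (fun _ => Or.inl ⟨by omega, by rw [e1, e2]; exact hlt⟩) (fun h => by norm_num at h))
        refine (congrArg (fun v => Int.ModEq 4 _ v) ?_).mp this
        ring
    · have hx2 := Nat.odd_iff.1 ho
      rw [ho.neg_one_pow]
      rcases lt_or_gt_of_ne hnp with hlt | hlt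
      · rw [Int.sign_eq_neg_one_of_neg (by omega)]
        have := key (-1) (Or.inr rfl)
          (SG_eq hp' hq' hne c1 c2 c3 c4 c5 c6 c7 c8 (by omega)
            (fun h => by norm_num at h) (fun _ => Or.inr ⟨by omega, hlt⟩))
          (SG_eq hq' hp' hne.symm c2 c1 c6 c7 c8 c3 c4 c5 (by omega)
            (fun _ => Or.inr ⟨by omega, by rw [e1, e2]; exact hlt⟩) (fun h => by norm_num at h))
        refine (congrArg (fun v => Int.ModEq 4 _ v) ?_).mp this
        ring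
      · rw [Int.sign_eq_one_of_pos (by omega)]
        have := key 1 (Or.inl rfl)
          (SG_eq hp' hq' hne c1 c2 c3 c4 c5 c6 c7 c8 (by omega)
            (fun _ => Or.inr ⟨by omega, hlt⟩) (fun h => by norm_num at h))
          (SG_eq hq' hp' hne.symm c2 c1 c6 c7 c8 c3 c4 c5 (by omega)
            (fun h => by norm_num at h) (fun _ => Or.inr ⟨by omega, by rw [e1, e2]; exact hlt⟩))
        refine (congrArg (fun v => Int.ModEq 4 _ v) ?_).mp this
        ring

end Pool.Agent.Results.MP_6dddb9_nt.BothParities
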